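import Pool.Agent.Q74.BT.Stm2

/-!
# Project BT (helper74), job LDup: upper bounds in the mean
-/

set_option autoImplicit false

namespace Pool.Agent.Q211.BT

open Finset
open Pool.Agent.Q158.Pair (T surv nc)
open Pool.Agent.Q74.AR (oc bE bE_succ bE_mul sum_oc oc_per)
open Pool.Agent.Q74.KP (EE Erf EE_mul Pe)
open Pool.Agent.Q74.BL (nx ww sum_per_le)
open Pool.Agent.H395R2.G3 (rr FF rate rr_spec rr_pos rr_lt_one FF_pos_of)
open Pool.Agent.Q74.BT

theorem ncard_le_sum {M : ℤ} {W : ℕ} {S : Set ℤ} {h : ℤ → ℝ}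
    (hS : ∀ x ∈ S, M ≤ x ∧ x < M + W) (h0 : ∀ x, 0 ≤ h x) (h1 : ∀ x ∈ S, 1 ≤ h x) :
    (S.ncard : ℝ) ≤ ∑ x ∈ Ico M (M + W), h x := by
  classical
  have hsub : S ⊆ (((Ico M (M + W)).filter (· ∈ S) : Finset ℤ) : Set ℤ) := by
    intro x hx
    rw [Finset.mem_coe, Finset.mem_filter, Finset.mem_Ico]
    exact ⟨hS x hx, hx⟩
  have h2 := Set.ncard_le_ncard hsub (Finset.finite_toSet _)
  rw [Set.ncard_coe_finset] at h2
  have h3 : (S.ncard : ℝ) ≤ ∑ x ∈ (Ico M (M + W)).filter (· ∈ S), (1 : ℝ) := by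
    rw [Finset.sum_const, nsmul_eq_mul, mul_one]
    exact_mod_cast h2
  refine h3.trans ((Finset.sum_le_sum fun x hx => h1 x (Finset.mem_filter.1 hx).2).trans ?_)
  exact Finset.sum_le_sum_of_subset_of_nonneg (Finset.filter_subset _ _) fun x _ _ => h0 x

theorem bE_pow (z : ℝ) (t : ℕ) : bE t (fun k => z ^ k) = ((1 + z) / 2) ^ t := by
  induction t with
  | zero => simp [bE]
  | succ n ih =>
    rw [bE_succ, ih]
    have h1 : bE n (fun k => z ^ (k + 1)) = z * bE n (fun k => z ^ k) := by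
      rw [← bE_mul]
      congr 1
      funext k
      rw [pow_succ, mul_comm]
    rw [h1, ih, pow_succ]
    ring

theorem EE_ocp (z : ℝ) (t : ℕ) : EE t (fun x => z ^ oc t x) = ((1 + z) / 2) ^ t := by
  rw [← bE_pow]
  unfold EE
  have h := sum_oc t (fun k => z ^ k)
  rw [h]
  field_simp

theorem log_four_thirds : Real.log (4 / 3) = 2 * Real.log 2 - Real.log 3 := by
  rw [Real.log_div (by norm_num) (by norm_num), show (4 : ℝ) = 2 ^ 2 by norm_num, Real.log_pow]
  norm_num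

theorem log_four_thirds_pos : 0 < Real.log (4 / 3) := Real.log_pos (by norm_num)

theorem rr_half {α : ℝ} (hα : 2 / Real.log (4 / 3) ≤ α) : 1 / 2 ≤ rr α := by
  have h0 := log_four_thirds_pos
  have hl3 : 0 < Real.log 3 := Real.log_pos (by norm_num)
  have hα0 : 0 < α := lt_of_lt_of_le (by positivity) hα
  have h1 : 1 / α ≤ Real.log (4 / 3) / 2 := by
    rw [div_le_iff₀ hα0]
    rw [div_le_iff₀ h0] at hα
    linarith
  rw [log_four_thirds] at h1
  unfold rr
  rw [le_div_iff₀ hl3]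
  linarith

/-- the bound for one `α` -/
theorem up_one {α : ℝ} (hα : 2 / Real.log (4 / 3) ≤ α) : ∃ C : ℝ, 0 < C ∧ ∀ L : ℕ, 2 ≤ L →
    ∀ (M : ℤ) (W : ℕ), (2 : ℝ) ^ (α * Real.log L) ≤ W →
    ({x : ℤ | M ≤ x ∧ x < M + W ∧
      ∀ i : ℕ, (i : ℝ) ≤ α * Real.log L → (2 : ℝ) ^ i < 3 ^ oc i x * L}.ncard : ℝ) ≤
      C * (L : ℝ) ^ (α * FF (rr α) - 1) * W := by
  have h43 := log_four_thirds_pos
  have hl3 : 0 < Real.log 3 := Real.log_pos (by norm_num)
  have hl2 : 0 < Real.log 2 := Real.log_pos (by norm_num)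
  have hα0 : 0 < α := lt_of_lt_of_le (by positivity) hα
  have hr := rr_half hα
  have hr1 := rr_lt_one hα0
  have hspec := rr_spec α
  set r : ℝ := rr α with hrdef
  have h1r : 0 < 1 - r := by linarith
  have hr0 : 0 < r := by linarith
  set z : ℝ := r / (1 - r) with hz
  have hz1 : 1 ≤ z := by
    rw [hz, le_div_iff₀ h1r]
    linarith
  have hz0 : 0 < z := lt_of_lt_of_le one_pos hz1
  set C₀ : ℝ := 1 / (α * Real.log 3) with hC₀
  set D : ℝ := Real.log 2 - Real.binEntropy r with hD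
  have hD0 : 0 ≤ D := by
    have := Real.binEntropy_le_log_two (p := r)
    linarith
  refine ⟨2 * z ^ C₀ * Real.exp D, by positivity, fun L hL M W hW => ?_⟩
  have hL0 : (0 : ℝ) < L := by exact_mod_cast (by omega : 0 < L)
  have hL1 : (1 : ℝ) ≤ L := by exact_mod_cast (by omega : 1 ≤ L)
  have hlL : 0 ≤ Real.log L := Real.log_nonneg hL1
  set k : ℕ := ⌊α * Real.log L⌋₊ with hk
  have hk1 : (k : ℝ) ≤ α * Real.log L := Nat.floor_le (by positivity)
  have hk2 : α * Real.log L < k + 1 := Nat.lt_floor_add_one _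
  have hWk : 2 ^ k ≤ W := by
    have h1 : (2 : ℝ) ^ k ≤ W := by
      rw [← Real.rpow_natCast]
      exact (Real.rpow_le_rpow_of_exponent_le (by norm_num) hk1).trans hW
    exact_mod_cast h1
  set h : ℤ → ℝ := fun x => z ^ (C₀ - r * k) * z ^ oc k x with hh
  have hper : Pe k h := by
    intro x j
    simp only [hh, oc_per]
  have hh0 : ∀ x, 0 ≤ h x := fun x => by positivity
  have h1 : ∀ x ∈ {x : ℤ | M ≤ x ∧ x < M + W ∧
      ∀ i : ℕ, (i : ℝ) ≤ α * Real.log L → (2 : ℝ) ^ i < 3 ^ oc i x * L}, 1 ≤ h x := by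
    rintro x ⟨-, -, hx⟩
    have h2 := hx k hk1
    have h3 := Real.log_lt_log (by positivity) h2
    rw [Real.log_pow, Real.log_mul (by positivity) hL0.ne', Real.log_pow] at h3
    have h4 : Real.log L < (k + 1) / α := by
      rw [lt_div_iff₀ hα0]
      linarith
    have h5 : r * k - C₀ ≤ oc k x := by
      have e1 : C₀ * Real.log 3 = 1 / α := by
        rw [hC₀]
        field_simp
      have e2 : ((k : ℝ) + 1) / α = k * (1 / α) + 1 / α := by ring
      rw [e2] at h4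
      have h6 : (r * k - C₀) * Real.log 3 ≤ oc k x * Real.log 3 := by
        rw [sub_mul, e1]
        have e3 : (k : ℝ) * (1 / α) = k * Real.log 2 - k * (r * Real.log 3) := by
          rw [hspec]
          ring
        rw [e3] at h4
        linarith
      exact le_of_mul_le_mul_right h6 hl3
    simp only [hh]
    rw [← Real.rpow_natCast z (oc k x), ← Real.rpow_add hz0]
    exact Real.one_le_rpow hz1 (by linarith)
  have h2 := ncard_le_sum (fun x hx => ⟨hx.1, hx.2.1⟩) hh0 h1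
  have h3 := sum_per_le hper hh0 M W hWk
  have h4 : EE k h = z ^ (C₀ - r * k) * ((1 + z) / 2) ^ k := by
    simp only [hh]
    rw [EE_mul, EE_ocp]
  have h5 : z ^ (C₀ - r * k) * ((1 + z) / 2) ^ k = z ^ C₀ * Real.exp (-(k * D)) := by
    have e1 : (1 + z) / 2 = Real.exp (-Real.log 2 - Real.log (1 - r)) := by
      rw [Real.exp_sub, Real.exp_neg, Real.exp_log (by norm_num), Real.exp_log h1r, hz]
      field_simp
      ring
    have e2 : z = Real.exp (Real.log r - Real.log (1 - r)) := by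
      rw [Real.exp_sub, Real.exp_log hr0, Real.exp_log h1r]
    have e3 : z ^ (C₀ - r * k) = z ^ C₀ * Real.exp (-(r * k) * (Real.log r - Real.log (1 - r))) := by
      rw [sub_eq_add_neg, Real.rpow_add hz0]
      congr 1
      conv_lhs => rw [e2]
      rw [← Real.exp_mul, mul_comm]
    rw [e3, e1, ← Real.exp_nat_mul, mul_assoc, ← Real.exp_add]
    congr 2
    rw [hD, Real.binEntropy, Real.log_inv, Real.log_inv]
    ring
  have h6 : Real.exp (-(k * D)) ≤ Real.exp D * (L : ℝ) ^ (α * FF r - 1) := by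
    rw [Real.rpow_def_of_pos hL0, ← Real.exp_add]
    apply Real.exp_le_exp.2
    have e1 : α * FF r - 1 = -(α * D) := by
      have e2 : α * (1 / α) = 1 := by field_simp
      rw [hspec] at e2
      unfold FF
      rw [hD]
      linarith
    rw [e1]
    nlinarith
  have hzC : 0 < z ^ C₀ := Real.rpow_pos_of_pos hz0 _
  calc _ ≤ _ := h2
    _ ≤ 2 * EE k h * W := h3
    _ = 2 * z ^ C₀ * W * Real.exp (-(k * D)) := by
      rw [h4, h5]
      ring
    _ ≤ 2 * z ^ C₀ * W * (Real.exp D * (L : ℝ) ^ (α * FF r - 1)) :=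
      mul_le_mul_of_nonneg_left h6 (by positivity)
    _ = _ := by ring

theorem FF_neg {γ α : ℝ} (hγ : IsG γ) (hα : γ < α) : FF (rr α) < 0 := by
  have hl3 : 0 < Real.log 3 := Real.log_pos (by norm_num)
  have hγ0 : 0 < γ := lt_trans (by norm_num) hγ.1
  have hα0 : 0 < α := hγ0.trans hα
  have h1 : rr γ < rr α := by
    unfold rr
    apply div_lt_div_of_pos_right _ hl3
    have := one_div_lt_one_div_of_lt hγ0 hα
    linarith
  have h2 : 1 / Real.log 2 < γ := by
    have := Real.log_two_gt_d9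
    rw [div_lt_iff₀ (by linarith)]
    have := hγ.1
    nlinarith
  by_contra hc
  have h3 := FF_pos_of (rr_pos h2) h1 (rr_lt_one hα0).le (not_lt.1 hc)
  have h4 := hγ.2.2.1
  linarith

theorem gamma_ge {γ : ℝ} (hγ : IsG γ) : 2 / Real.log (4 / 3) ≤ γ := by
  have h1 := Real.log_two_gt_d9
  have h2 := Real.log_three_lt_d9
  have h3 := hγ.1
  rw [div_le_iff₀ log_four_thirds_pos, log_four_thirds]
  nlinarith

theorem ldup : S_LDup := by
  intro γ hγ
  refine ⟨fun α hα => up_one hα, fun ε hε => ?_⟩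
  have hγ0 : 0 < γ := lt_trans (by norm_num) hγ.1
  have hFneg : FF (rr (γ + ε)) < 0 := FF_neg hγ (by linarith)
  obtain ⟨C, hC, hmain⟩ := up_one (α := γ + ε) ((gamma_ge hγ).trans (by linarith))
  refine ⟨-((γ + ε) * FF (rr (γ + ε))), C, by nlinarith, hC, fun L hL M W hW => ?_⟩
  have hL0 : (0 : ℝ) < L := by exact_mod_cast (by omega : 0 < L)
  set P : ℤ → Prop := fun x => ∀ i : ℕ, (i : ℝ) ≤ (γ + ε) * Real.log L →
    (2 : ℝ) ^ i < 3 ^ oc i x * L with hP
  have hone : ∀ j : ℕ, ({m : ℤ | M ≤ m ∧ m < M + W ∧ P (m + j)}.ncard : ℝ) ≤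
      C * (L : ℝ) ^ ((γ + ε) * FF (rr (γ + ε)) - 1) * W := by
    intro j
    have h1 := hmain L hL (M + j) W hW
    have h2 : ((fun m : ℤ => m + (j : ℤ)) '' {m : ℤ | M ≤ m ∧ m < M + W ∧ P (m + j)}) =
        {x : ℤ | M + j ≤ x ∧ x < M + j + W ∧ P x} := by
      ext x
      constructor
      · rintro ⟨m, ⟨a1, a2, a3⟩, rfl⟩
        exact ⟨by simpa using a1, by show m + (j : ℤ) < M + j + W; linarith, a3⟩
      · rintro ⟨a1, a2, a3⟩
        refine ⟨x - j, ⟨by linarith, by linarith, ?_⟩, by ring⟩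
        rw [sub_add_cancel]
        exact a3
    have h3 := Set.ncard_image_of_injective {m : ℤ | M ≤ m ∧ m < M + W ∧ P (m + j)}
      (add_left_injective (j : ℤ))
    rw [← h3]
    rw [h2]
    exact h1
  have hsub : {m : ℤ | M ≤ m ∧ m < M + W ∧ ∃ j : ℕ, j < L ∧ P (m + j)} ⊆
      ⋃ j ∈ range L, {m : ℤ | M ≤ m ∧ m < M + W ∧ P (m + j)} := by
    rintro m ⟨a1, a2, j, hj, a3⟩
    simp only [Set.mem_iUnion, Finset.mem_range]
    exact ⟨j, hj, a1, a2, a3⟩
  have hfin : (⋃ j ∈ range L, {m : ℤ | M ≤ m ∧ m < M + W ∧ P (m + j)}).Finite := by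
    apply (Set.finite_Ico M (M + W)).subset
    intro m hm
    simp only [Set.mem_iUnion] at hm
    obtain ⟨j, -, a1, a2, -⟩ := hm
    exact ⟨a1, a2⟩
  have h4 := Set.ncard_le_ncard hsub hfin
  have h5 := Finset.set_ncard_biUnion_le (range L)
    (fun j : ℕ => {m : ℤ | M ≤ m ∧ m < M + W ∧ P (m + j)})
  have h6 : ({m : ℤ | M ≤ m ∧ m < M + W ∧ ∃ j : ℕ, j < L ∧ P (m + j)}.ncard : ℝ) ≤
      ∑ j ∈ range L, ({m : ℤ | M ≤ m ∧ m < M + W ∧ P (m + j)}.ncard : ℝ) := by
    exact_mod_cast h4.trans h5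
  have h7 : ∑ j ∈ range L, ({m : ℤ | M ≤ m ∧ m < M + W ∧ P (m + j)}.ncard : ℝ) ≤
      L * (C * (L : ℝ) ^ ((γ + ε) * FF (rr (γ + ε)) - 1) * W) := by
    refine (Finset.sum_le_sum fun j _ => hone j).trans ?_
    rw [Finset.sum_const, Finset.card_range, nsmul_eq_mul]
  refine (h6.trans h7).trans (le_of_eq ?_)
  rw [Real.rpow_sub hL0, Real.rpow_one, Real.rpow_neg hL0.le]
  field_simp

end Pool.Agent.Q211.BT
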