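import Pool.Agent.Q74.BT.Stm2

/-!
# Project BT (helper74), job LDlow: lower large deviation law in every interval
-/

set_option autoImplicit false

namespace Pool.Agent.Q211.BT

open Finset
open Pool.Agent.Q158.Pair (T surv nc)
open Pool.Agent.Q74.AR (oc bE)
open Pool.Agent.Q74.KP (EE Erf oc_add)
open Pool.Agent.Q74.BL (nx ww)
open Pool.Agent.H395R2.G3 (rr FF rate rr_spec rr_pos rr_lt_one FF_pos_of)
open Pool.Agent.Q74.BT

theorem oc_zero (x : ℤ) : oc 0 x = 0 := rfl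

/-- chains of blocks -/
theorem chains {n s N : ℕ} {ρ C₁ : ℝ} (hρ : ρ = 2 ^ s / 3 ^ n) (hC₁ : C₁ * (ρ - 1) = 2 ^ s)
    (h : ∀ y : ℤ, ¬ (3 : ℤ) ∣ y → ∃ X : Finset ℤ, X.card = N ∧ ∀ x ∈ X, ¬ (3 : ℤ) ∣ x ∧
      T^[s] x = y ∧ oc s x = n ∧ |3 ^ n * x - 2 ^ s * y| ≤ 3 ^ n * 2 ^ s) (K : ℕ) :
    ∀ y : ℤ, ¬ (3 : ℤ) ∣ y → ∃ X : Finset ℤ, X.card = N ^ K ∧ ∀ x ∈ X, ¬ (3 : ℤ) ∣ x ∧
      T^[K * s] x = y ∧ (∀ i ≤ K, oc (i * s) x = i * n) ∧
      |(x : ℝ) - ρ ^ K * y| ≤ C₁ * (ρ ^ K - 1) := by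
  classical
  have hρ0 : 0 < ρ := by
    rw [hρ]
    positivity
  induction K with
  | zero =>
    intro y hy
    refine ⟨{y}, by simp, fun x hx => ?_⟩
    rw [Finset.mem_singleton] at hx
    subst hx
    refine ⟨hy, by simp, fun i hi => ?_, by simp⟩
    have : i = 0 := by omega
    subst this
    rw [Nat.zero_mul, Nat.zero_mul]
    rfl
  | succ K ih =>
    intro y hy
    obtain ⟨X, hX, hX2⟩ := ih y hy
    choose! Y hY hY2 using h
    refine ⟨X.biUnion Y, ?_, fun x hx => ?_⟩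
    · rw [Finset.card_biUnion]
      · rw [Finset.sum_congr rfl fun x hx => hY x (hX2 x hx).1, Finset.sum_const, hX, smul_eq_mul,
          pow_succ]
      · intro a ha b hb hab
        show Disjoint (Y a) (Y b)
        rw [Finset.disjoint_left]
        intro x hxa hxb
        apply hab
        rw [← (hY2 a (hX2 a ha).1 x hxa).2.1, ← (hY2 b (hX2 b hb).1 x hxb).2.1]
    · rw [Finset.mem_biUnion] at hx
      obtain ⟨x', hx', hx⟩ := hx
      obtain ⟨g1, g2, g3, g4⟩ := hX2 x' hx'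
      obtain ⟨f1, f2, f3, f4⟩ := hY2 x' g1 x hx
      refine ⟨f1, ?_, ?_, ?_⟩
      · rw [Nat.succ_mul, Function.iterate_add_apply, f2, g2]
      · intro i hi
        rcases i with _ | i
        · rw [Nat.zero_mul, Nat.zero_mul]
          rfl
        · rw [Nat.succ_mul, Nat.add_comm (i * s) s, oc_add, f2, f3, g3 i (by omega), Nat.succ_mul,
            Nat.add_comm]
      · have h1 : |(x : ℝ) - ρ * x'| ≤ 2 ^ s := by
          have h2 : |(3 : ℝ) ^ n * x - 2 ^ s * x'| ≤ 3 ^ n * 2 ^ s := by exact_mod_cast f4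
          have h3 : (x : ℝ) - ρ * x' = (3 ^ n * x - 2 ^ s * x') / 3 ^ n := by
            rw [hρ]
            field_simp
          rw [h3, abs_div, abs_of_pos (show (0 : ℝ) < 3 ^ n by positivity),
            div_le_iff₀ (by positivity)]
          linarith
        have h4 : |ρ * ((x' : ℝ) - ρ ^ K * y)| ≤ ρ * (C₁ * (ρ ^ K - 1)) := by
          rw [abs_mul, abs_of_pos hρ0]
          exact mul_le_mul_of_nonneg_left g4 hρ0.le
        have h5 : (x : ℝ) - ρ ^ (K + 1) * y = ((x : ℝ) - ρ * x') + ρ * ((x' : ℝ) - ρ ^ K * y) := by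
          ring
        have h6 : C₁ * (ρ ^ (K + 1) - 1) = 2 ^ s + ρ * (C₁ * (ρ ^ K - 1)) := by
          rw [← hC₁]
          ring
        rw [h5, h6]
        exact (abs_add_le _ _).trans (add_le_add h1 h4)

theorem not_dvd_of {y : ℤ} (h : (3 : ℤ) ∣ y) : ¬ (3 : ℤ) ∣ y + 1 := by
  omega

theorem ldlow (h : S_BM) : S_LDlow := by
  classical
  intro γ hγ α hα1 hα2 ε hε
  have hl2 : 0 < Real.log 2 := Real.log_pos (by norm_num)
  have hl2' : Real.log 2 < 1 := by
    have := Real.log_two_lt_d9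
    linarith
  have hl3 : 0 < Real.log 3 := Real.log_pos (by norm_num)
  have hl3' : Real.log 3 < 3 / 2 := by
    have := Real.log_three_lt_d9
    linarith
  have hα0 : 0 < α := lt_trans (by positivity) hα1
  have hF : 0 < FF (rr α) := hγ.2.2.2 α hα1 hα2
  have hr0 := rr_pos hα1
  have hr1 := rr_lt_one hα0
  have hspec := rr_spec α
  set r : ℝ := rr α with hr
  set F : ℝ := FF r with hFdef
  have hF1 : F ≤ 1 := by
    rw [hFdef]
    unfold FF
    have h1 := Real.binEntropy_le_log_two (p := r)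
    have h2 : 0 ≤ r * Real.log 3 := by positivity
    linarith
  obtain ⟨δ', hδ'0, hδ'1, hδ'2, hδ'3, hδ'4, hδ'5⟩ : ∃ δ' : ℝ, 0 < δ' ∧ 4 * δ' ≤ F ∧
      3 * α * δ' ≤ 1 / 2 ∧ 6 * α ^ 2 * δ' ≤ ε / 2 ∧ 4 * α * δ' ≤ ε / 4 ∧ δ' ≤ 1 / 2 := by
    refine ⟨min (min (F / 8) (1 / (6 * α))) (min (ε / (12 * α ^ 2)) (min (ε / (16 * α)) (1 / 2))),
      by positivity, ?_, ?_, ?_, ?_, ?_⟩
    · have : min (min (F / 8) (1 / (6 * α))) (min (ε / (12 * α ^ 2)) (min (ε / (16 * α)) (1 / 2)))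
          ≤ F / 8 := (min_le_left _ _).trans (min_le_left _ _)
      linarith
    · have : min (min (F / 8) (1 / (6 * α))) (min (ε / (12 * α ^ 2)) (min (ε / (16 * α)) (1 / 2)))
          ≤ 1 / (6 * α) := (min_le_left _ _).trans (min_le_right _ _)
      calc _ ≤ 3 * α * (1 / (6 * α)) := mul_le_mul_of_nonneg_left this (by positivity)
        _ = 1 / 2 := by field_simp; norm_num
    · have : min (min (F / 8) (1 / (6 * α))) (min (ε / (12 * α ^ 2)) (min (ε / (16 * α)) (1 / 2)))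
          ≤ ε / (12 * α ^ 2) := (min_le_right _ _).trans (min_le_left _ _)
      calc _ ≤ 6 * α ^ 2 * (ε / (12 * α ^ 2)) := mul_le_mul_of_nonneg_left this (by positivity)
        _ = ε / 2 := by field_simp; norm_num
    · have : min (min (F / 8) (1 / (6 * α))) (min (ε / (12 * α ^ 2)) (min (ε / (16 * α)) (1 / 2)))
          ≤ ε / (16 * α) := (min_le_right _ _).trans ((min_le_right _ _).trans (min_le_left _ _))
      calc _ ≤ 4 * α * (ε / (16 * α)) := mul_le_mul_of_nonneg_left this (by positivity)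
        _ = ε / 4 := by field_simp; norm_num
    · exact (min_le_right _ _).trans ((min_le_right _ _).trans (min_le_right _ _))
  obtain ⟨n, s, N, hn, hsn, hN, hX⟩ := h r δ' hr0 hr1 hF hδ'0
  have hn0 : (1 : ℝ) ≤ n := by exact_mod_cast hn
  -- the sizes
  obtain ⟨e, he⟩ : ∃ e : ℝ, e = n / r - s := ⟨_, rfl⟩
  have he1 : |e| ≤ δ' * n := by
    rw [he, abs_sub_comm]
    exact hsn
  have he2 := abs_le.1 he1
  have hnr : (n : ℝ) = r * (s + e) := by
    rw [he]
    field_simp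
    ring
  have hnr2 : (n : ℝ) ≤ n / r := by
    rw [le_div_iff₀ hr0]
    nlinarith
  have hn2s : (n : ℝ) ≤ 2 * s := by
    have h1 : δ' * n ≤ 1 / 2 * n := mul_le_mul_of_nonneg_right hδ'5 (by linarith)
    have h2 : (n : ℝ) / r ≤ s + δ' * n := by linarith [he2.2]
    linarith
  have hs0 : (0 : ℝ) < s := by linarith
  have hs1 : 1 ≤ s := by
    have : 0 < s := by exact_mod_cast hs0
    omega
  have he3 : |e| ≤ 2 * δ' * s := by
    refine he1.trans ?_
    nlinarith
  set D : ℝ := s * Real.log 2 - n * Real.log 3 with hD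
  have hDe : D = s / α - r * e * Real.log 3 := by
    have h1 : (s : ℝ) / α = s * (Real.log 2 - r * Real.log 3) := by
      rw [← hspec]
      ring
    rw [hD, h1, hnr]
    ring
  have hDerr : |r * e * Real.log 3| ≤ 3 * δ' * s := by
    rw [abs_mul, abs_mul, abs_of_pos hr0, abs_of_pos hl3]
    have h1 : r * |e| ≤ 1 * (2 * δ' * s) :=
      mul_le_mul hr1.le he3 (abs_nonneg _) (by norm_num)
    calc r * |e| * Real.log 3 ≤ 1 * (2 * δ' * s) * (3 / 2) :=
          mul_le_mul h1 hl3'.le hl3.le (by positivity)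
      _ = 3 * δ' * s := by ring
  have hDe2 := abs_le.1 hDerr
  -- with t = 3 α δ'
  set t : ℝ := 3 * α * δ' with ht
  have ht0 : 0 ≤ t := by positivity
  have hst : 3 * δ' * s = s / α * t := by
    rw [ht]
    field_simp
  have hDlow : s / α * (1 - t) ≤ D := by
    rw [hDe]
    have := hDe2.2
    rw [hst] at this
    linarith
  have hDup : D ≤ s / α * (1 + t) := by
    rw [hDe]
    have := hDe2.1
    rw [hst] at this
    linarith
  have hsα : 0 < s / α := by positivity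
  have hD0 : 0 < D := by
    refine lt_of_lt_of_le ?_ hDlow
    have : 0 < 1 - t := by linarith
    positivity
  obtain ⟨q, hq⟩ : ∃ q : ℝ, q = s / D := ⟨_, rfl⟩
  have hq0 : 0 < q := by
    rw [hq]
    positivity
  have hq1 : α * (1 - t) ≤ q := by
    rw [hq, le_div_iff₀ hD0]
    have h1 : α * (1 - t) * D ≤ α * (1 - t) * (s / α * (1 + t)) :=
      mul_le_mul_of_nonneg_left hDup (mul_nonneg hα0.le (by linarith))
    have h2 : α * (1 - t) * (s / α * (1 + t)) = s * (1 - t ^ 2) := by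
      field_simp
      ring
    rw [h2] at h1
    nlinarith [sq_nonneg t]
  have hq2 : q ≤ α * (1 + 2 * t) := by
    rw [hq, div_le_iff₀ hD0]
    have h1 : α * (1 + 2 * t) * (s / α * (1 - t)) ≤ α * (1 + 2 * t) * D :=
      mul_le_mul_of_nonneg_left hDlow (by positivity)
    have h2 : α * (1 + 2 * t) * (s / α * (1 - t)) = s * (1 + t * (1 - 2 * t)) := by
      field_simp
      ring
    rw [h2] at h1
    have h3 : 0 ≤ t * (1 - 2 * t) := mul_nonneg ht0 (by linarith)
    nlinarith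
  -- the number of words
  have hNn : s * (F - 4 * δ') ≤ (F / r - δ') * n := by
    have h1 : (F / r - δ') * n = F * (n / r) - δ' * n := by ring
    have h2 : (n : ℝ) / r = s + e := by rw [he]; ring
    rw [h1, h2]
    have h3 : F * (s + e) ≥ F * (s - δ' * n) := mul_le_mul_of_nonneg_left (by linarith [he2.1]) hF.le
    have h4 : F * (δ' * n) ≤ 1 * (δ' * n) := mul_le_mul_of_nonneg_right hF1 (by positivity)
    nlinarith
  set ρ : ℝ := 2 ^ s / 3 ^ n with hρ
  have hρD : ρ = Real.exp D := by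
    rw [hρ, hD, Real.exp_sub, mul_comm, Real.exp_mul, Real.exp_log (by norm_num), mul_comm,
      Real.exp_mul, Real.exp_log (by norm_num), Real.rpow_natCast, Real.rpow_natCast]
  have hρ1 : 1 < ρ := by
    rw [hρD]
    exact Real.one_lt_exp_iff.2 hD0
  set C₁ : ℝ := 2 ^ s / (ρ - 1) with hC₁
  have hC₁0 : 0 < C₁ := by
    have : 0 < ρ - 1 := by linarith
    positivity
  have hC₁1 : C₁ * (ρ - 1) = 2 ^ s := by
    rw [hC₁, div_mul_cancel₀]
    linarith
  have hchain := chains hρ hC₁1 hX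
  refine ⟨min (1 / 2) (ε / (4 * α)), by positivity, fun δ hδ0 hδ => ?_⟩
  have hδ1 : δ ≤ 1 / 2 := hδ.trans (min_le_left _ _)
  have hδ2 : α * δ ≤ ε / 4 := by
    calc α * δ ≤ α * (ε / (4 * α)) :=
          mul_le_mul_of_nonneg_left (hδ.trans (min_le_right _ _)) hα0.le
      _ = ε / 4 := by field_simp
  obtain ⟨ℓ₀, hℓ₀⟩ : ∃ ℓ₀ : ℝ, ℓ₀ = max ((D + Real.log (2 * C₁ + 2)) / δ)
    (max (2 * s / ε) (2 * (q * s * Real.log 2) / ε)) := ⟨_, rfl⟩
  refine ⟨⌈Real.exp ℓ₀⌉₊ + 1, fun L hL m => ?_⟩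
  have hL1 : Real.exp ℓ₀ ≤ L := (Nat.le_ceil _).trans (by exact_mod_cast (by omega))
  have hL0 : (0 : ℝ) < L := lt_of_lt_of_le (Real.exp_pos _) hL1
  have hLone : (1 : ℝ) ≤ L := by exact_mod_cast (by omega : 1 ≤ L)
  obtain ⟨l, hl⟩ : ∃ l : ℝ, l = Real.log L := ⟨_, rfl⟩
  have hl0 : 0 ≤ l := by
    rw [hl]
    exact Real.log_nonneg hLone
  have hℓ : ℓ₀ ≤ l := by
    rw [hl, Real.le_log_iff_exp_le hL0]
    exact hL1
  have hc1 : D + Real.log (2 * C₁ + 2) ≤ δ * l := by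
    have h1 : (D + Real.log (2 * C₁ + 2)) / δ ≤ l := by
      rw [hℓ₀] at hℓ
      exact (le_max_left _ _).trans hℓ
    rw [div_le_iff₀ hδ0] at h1
    linarith
  have hc2 : (s : ℝ) ≤ ε / 2 * l := by
    have h1 : 2 * (s : ℝ) / ε ≤ l := by
      rw [hℓ₀] at hℓ
      exact ((le_max_left _ _).trans (le_max_right _ _)).trans hℓ
    rw [div_le_iff₀ hε] at h1
    linarith
  have hc3 : q * s * Real.log 2 ≤ ε / 2 * l := by
    have h1 : 2 * (q * s * Real.log 2) / ε ≤ l := by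
      rw [hℓ₀] at hℓ
      exact ((le_max_right _ _).trans (le_max_right _ _)).trans hℓ
    rw [div_le_iff₀ hε] at h1
    linarith
  have hLexp : (L : ℝ) = Real.exp l := by rw [hl, Real.exp_log hL0]
  have hLpow : (L : ℝ) ^ (1 - δ) = Real.exp ((1 - δ) * l) := by
    rw [Real.rpow_def_of_pos hL0, ← hl, mul_comm]
  -- the number of blocks
  obtain ⟨K, hK⟩ : ∃ K : ℕ, K = ⌈(1 - δ) * l / D⌉₊ := ⟨_, rfl⟩
  have hq' : (1 - δ) * l / D * s = (1 - δ) * l * q := by rw [hq]; ring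
  have hpos : 0 ≤ (1 - δ) * l / D := by
    have : 0 ≤ 1 - δ := by linarith
    positivity
  have hK1 : (1 - δ) * l / D ≤ K := by
    rw [hK]
    exact Nat.le_ceil _
  have hK2 : (K : ℝ) < (1 - δ) * l / D + 1 := by
    rw [hK]
    exact Nat.ceil_lt_add_one hpos
  have hK3 : (1 - δ) * l ≤ K * D := by
    rwa [div_le_iff₀ hD0] at hK1
  have hK4 : K * D ≤ (1 - δ) * l + D := by
    have h1 : (K : ℝ) * D ≤ ((1 - δ) * l / D + 1) * D :=
      mul_le_mul_of_nonneg_right hK2.le hD0.le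
    have h2 : ((1 - δ) * l / D + 1) * D = (1 - δ) * l + D := by field_simp
    linarith
  have hρK : ρ ^ K = Real.exp (K * D) := by
    rw [hρD, ← Real.exp_nat_mul]
  have hρK0 : 0 < ρ ^ K := by positivity
  -- the endpoint
  have hlen : 2 ≤ L / ρ ^ K - 2 * C₁ := by
    have h1 : Real.exp (δ * l - D) ≤ L / ρ ^ K := by
      rw [hρK, hLexp, ← Real.exp_sub]
      apply Real.exp_le_exp.2
      linarith
    have h2 : 2 * C₁ + 2 ≤ Real.exp (δ * l - D) := by
      rw [← Real.log_le_iff_le_exp (by positivity)]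
      linarith
    linarith
  obtain ⟨y, hy3, hy1, hy2⟩ : ∃ y : ℤ, ¬ (3 : ℤ) ∣ y ∧ (m : ℝ) / ρ ^ K + C₁ ≤ y ∧
      (y : ℝ) < (m + L) / ρ ^ K - C₁ := by
    have h1 : (m : ℝ) / ρ ^ K + C₁ ≤ ⌈(m : ℝ) / ρ ^ K + C₁⌉ := Int.le_ceil _
    have h2 : (⌈(m : ℝ) / ρ ^ K + C₁⌉ : ℝ) < (m : ℝ) / ρ ^ K + C₁ + 1 := Int.ceil_lt_add_one _
    have h3 : ((m : ℝ) + L) / ρ ^ K = m / ρ ^ K + L / ρ ^ K := by ring
    by_cases h4 : (3 : ℤ) ∣ ⌈(m : ℝ) / ρ ^ K + C₁⌉
    · refine ⟨⌈(m : ℝ) / ρ ^ K + C₁⌉ + 1, not_dvd_of h4, ?_, ?_⟩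
      · push_cast
        linarith
      · push_cast
        rw [h3]
        linarith
    · refine ⟨⌈(m : ℝ) / ρ ^ K + C₁⌉, h4, h1, ?_⟩
      rw [h3]
      linarith
  obtain ⟨X, hXc, hXm⟩ := hchain K y hy3
  have hmem : ∀ x ∈ X, m ≤ x ∧ x < m + L := by
    intro x hx
    have h1 := abs_le.1 (hXm x hx).2.2.2
    have h2 : (m : ℝ) + C₁ * ρ ^ K ≤ ρ ^ K * y := by
      have := mul_le_mul_of_nonneg_right hy1 hρK0.le
      rw [add_mul, div_mul_cancel₀ _ hρK0.ne'] at this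
      linarith
    have h3 : ρ ^ K * y < m + L - C₁ * ρ ^ K := by
      have := mul_lt_mul_of_pos_right hy2 hρK0
      rw [sub_mul, div_mul_cancel₀ _ hρK0.ne'] at this
      linarith
    constructor
    · have h4 : (m : ℝ) ≤ x := by linarith [h1.1]
      exact_mod_cast h4
    · have h4 : (x : ℝ) < m + L := by linarith [h1.2]
      exact_mod_cast h4
  have hstop : ∀ x ∈ X, ∃ k : ℕ, IsLeast {k : ℕ | (3 : ℝ) ^ oc k x * (L : ℝ) ^ (1 - δ) ≤ 2 ^ k} k ∧
      |(k : ℝ) - α * Real.log L| ≤ ε * Real.log L := by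
    intro x hx
    obtain ⟨-, -, hoc, -⟩ := hXm x hx
    have hex : ∃ k : ℕ, (3 : ℝ) ^ oc k x * (L : ℝ) ^ (1 - δ) ≤ 2 ^ k := by
      refine ⟨K * s, ?_⟩
      rw [hoc K le_rfl, hLpow]
      have h1 : Real.exp ((1 - δ) * l) ≤ ρ ^ K := by
        rw [hρK]
        exact Real.exp_le_exp.2 hK3
      have h2 : ρ ^ K = 2 ^ (K * s) / 3 ^ (K * n) := by
        rw [hρ, div_pow, ← pow_mul, ← pow_mul, mul_comm s K, mul_comm n K]
      rw [h2, le_div_iff₀ (by positivity)] at h1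
      linarith
    refine ⟨Nat.find hex, ⟨Nat.find_spec hex, fun j hj => Nat.find_min' hex hj⟩, ?_⟩
    set k := Nat.find hex with hk
    have hkspec : (3 : ℝ) ^ oc k x * (L : ℝ) ^ (1 - δ) ≤ 2 ^ k := Nat.find_spec hex
    have hkK : k ≤ K * s := by
      apply Nat.find_min' hex
      rw [hoc K le_rfl, hLpow]
      have h1 : Real.exp ((1 - δ) * l) ≤ ρ ^ K := by
        rw [hρK]
        exact Real.exp_le_exp.2 hK3
      have h2 : ρ ^ K = 2 ^ (K * s) / 3 ^ (K * n) := by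
        rw [hρ, div_pow, ← pow_mul, ← pow_mul, mul_comm s K, mul_comm n K]
      rw [h2, le_div_iff₀ (by positivity)] at h1
      linarith
    obtain ⟨i, hi⟩ : ∃ i : ℕ, i = k / s := ⟨_, rfl⟩
    have hdm := Nat.div_add_mod k s
    have hmod := Nat.mod_lt k (by omega : 0 < s)
    have hiK : i ≤ K := by
      rw [hi]
      apply Nat.div_le_of_le_mul
      rw [mul_comm]
      exact hkK
    have hki : k = i * s + k % s := by
      rw [hi, mul_comm]
      exact hdm.symm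
    have hoci : i * n ≤ oc k x := by
      rw [hki, oc_add, hoc i hiK]
      exact Nat.le_add_right _ _
    have hlog : (1 - δ) * l ≤ i * D + s * Real.log 2 := by
      have h1 : (3 : ℝ) ^ (i * n) * (L : ℝ) ^ (1 - δ) ≤ 2 ^ ((i + 1) * s) := by
        calc (3 : ℝ) ^ (i * n) * (L : ℝ) ^ (1 - δ) ≤ 3 ^ oc k x * (L : ℝ) ^ (1 - δ) :=
              mul_le_mul_of_nonneg_right (pow_le_pow_right₀ (by norm_num) hoci) (by positivity)
          _ ≤ 2 ^ k := hkspec
          _ ≤ 2 ^ ((i + 1) * s) := by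
            apply pow_le_pow_right₀ (by norm_num)
            rw [hki, add_mul, one_mul]
            omega
      have h2 := Real.log_le_log (by positivity) h1
      rw [Real.log_mul (by positivity) (by positivity), Real.log_pow, Real.log_pow, hLpow,
        Real.log_exp] at h2
      push_cast at h2
      rw [hD]
      linarith
    have hupper : (k : ℝ) ≤ α * l + ε * l := by
      have h1 : (k : ℝ) ≤ K * s := by exact_mod_cast hkK
      have h2 : (K : ℝ) * s ≤ ((1 - δ) * l / D + 1) * s :=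
        mul_le_mul_of_nonneg_right hK2.le hs0.le
      have h3 : ((1 - δ) * l / D + 1) * s = (1 - δ) * l * q + s := by
        rw [add_mul, hq', one_mul]
      have h4 : (1 - δ) * l * q ≤ l * (α * (1 + 2 * t)) := by
        have h5 : (1 - δ) * l ≤ l := mul_le_of_le_one_left hl0 (by linarith)
        exact mul_le_mul h5 hq2 hq0.le hl0
      have h6 : l * (α * (1 + 2 * t)) = α * l + 6 * α ^ 2 * δ' * l := by
        rw [ht]
        ring
      have h7 : 6 * α ^ 2 * δ' * l ≤ ε / 2 * l := mul_le_mul_of_nonneg_right hδ'3 hl0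
      linarith
    have hlower : α * l - ε * l ≤ k := by
      have h1 : (i : ℝ) * s ≤ k := by
        have : i * s ≤ k := by omega
        exact_mod_cast this
      have h2 : ((1 - δ) * l - s * Real.log 2) / D ≤ i := by
        rw [div_le_iff₀ hD0]
        linarith
      have h3 : ((1 - δ) * l - s * Real.log 2) / D * s ≤ i * s :=
        mul_le_mul_of_nonneg_right h2 hs0.le
      have h4 : ((1 - δ) * l - s * Real.log 2) / D * s = (1 - δ) * l * q - q * s * Real.log 2 := by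
        rw [hq]
        ring
      have h5 : (1 - δ) * l * (α * (1 - t)) ≤ (1 - δ) * l * q :=
        mul_le_mul_of_nonneg_left hq1 (mul_nonneg (by linarith) hl0)
      have h6 : α * l - α * δ * l - α * t * l ≤ (1 - δ) * l * (α * (1 - t)) := by
        have : (1 - δ) * l * (α * (1 - t)) = α * l - α * δ * l - α * t * l + α * l * (δ * t) := by
          ring
        rw [this]
        have : 0 ≤ α * l * (δ * t) := by positivity
        linarith
      have h7 : α * δ * l ≤ ε / 4 * l := mul_le_mul_of_nonneg_right hδ2 hl0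
      have h8 : α * t * l ≤ ε / 4 * l := by
        apply mul_le_mul_of_nonneg_right _ hl0
        have h9 : α * t = 3 * α ^ 2 * δ' := by
          rw [ht]
          ring
        linarith
      linarith
    rw [← hl, abs_le]
    constructor
    · linarith
    · linarith
  -- the count
  have hfin : {x : ℤ | m ≤ x ∧ x < m + L ∧
      ∃ k : ℕ, IsLeast {k : ℕ | (3 : ℝ) ^ oc k x * (L : ℝ) ^ (1 - δ) ≤ 2 ^ k} k ∧
        |(k : ℝ) - α * Real.log L| ≤ ε * Real.log L}.Finite :=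
    (Set.finite_Ico m (m + L)).subset fun x hx => ⟨hx.1, hx.2.1⟩
  have hsub : (X : Set ℤ) ⊆ {x : ℤ | m ≤ x ∧ x < m + L ∧
      ∃ k : ℕ, IsLeast {k : ℕ | (3 : ℝ) ^ oc k x * (L : ℝ) ^ (1 - δ) ≤ 2 ^ k} k ∧
        |(k : ℝ) - α * Real.log L| ≤ ε * Real.log L} := fun x hx =>
    ⟨(hmem x hx).1, (hmem x hx).2, hstop x hx⟩
  have hcard := Set.ncard_le_ncard hsub hfin
  rw [Set.ncard_coe_finset, hXc] at hcard
  have hcard' := (Nat.cast_le (α := ℝ)).2 hcard
  rw [Nat.cast_pow] at hcard'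
  refine le_trans ?_ hcard'
  have h1 : Real.exp (K * ((F / r - δ') * n)) ≤ (N : ℝ) ^ K := by
    rw [Real.exp_nat_mul]
    exact pow_le_pow_left₀ (Real.exp_pos _).le hN K
  refine le_trans ?_ h1
  rw [Real.rpow_def_of_pos hL0, ← hl]
  apply Real.exp_le_exp.2
  have hF4 : 0 ≤ F - 4 * δ' := by linarith
  have h2 : (K : ℝ) * (s * (F - 4 * δ')) ≤ K * ((F / r - δ') * n) :=
    mul_le_mul_of_nonneg_left hNn (Nat.cast_nonneg _)
  have h3 : (1 - δ) * l * q ≤ K * s := by
    rw [← hq']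
    exact mul_le_mul_of_nonneg_right hK1 hs0.le
  have h4 : (1 - δ) * l * (α * (1 - t)) ≤ K * s :=
    (mul_le_mul_of_nonneg_left hq1 (mul_nonneg (by linarith) hl0)).trans h3
  have h5 : (1 - δ) * l * (α * (1 - t)) * (F - 4 * δ') ≤ K * s * (F - 4 * δ') :=
    mul_le_mul_of_nonneg_right h4 hF4
  have h6 : l * (α * F - ε) ≤ (1 - δ) * l * (α * (1 - t)) * (F - 4 * δ') := by
    have e1 : (1 - δ) * (1 - t) * (F - 4 * δ') ≥ F - 4 * δ' - δ - t := by
      have e2 : (1 - δ) * (1 - t) ≥ 1 - δ - t := by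
        have e8 : 0 ≤ δ * t := mul_nonneg hδ0.le ht0
        linarith
      have e3 : (1 - δ) * (1 - t) * (F - 4 * δ') ≥ (1 - δ - t) * (F - 4 * δ') :=
        mul_le_mul_of_nonneg_right e2 hF4
      have e4 : (δ + t) * (F - 4 * δ') ≤ (δ + t) * 1 :=
        mul_le_mul_of_nonneg_left (by linarith) (by linarith)
      linarith
    have e5 : (1 - δ) * l * (α * (1 - t)) * (F - 4 * δ') =
        l * (α * ((1 - δ) * (1 - t) * (F - 4 * δ'))) := by ring
    rw [e5]
    apply mul_le_mul_of_nonneg_left _ hl0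
    have e6 : α * (F - 4 * δ' - δ - t) ≤ α * ((1 - δ) * (1 - t) * (F - 4 * δ')) :=
      mul_le_mul_of_nonneg_left e1 hα0.le
    have e7 : α * t ≤ ε / 4 := by
      have h9 : α * t = 3 * α ^ 2 * δ' := by
        rw [ht]
        ring
      linarith
    linarith
  linarith

end Pool.Agent.Q211.BT
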